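import Pool.Agent.H25.KS2.Defs

/-!
# Restriction of finite laws to events: basic lemmas
-/

set_option autoImplicit false

namespace Pool.KS2

open Finset Real
open Pool.Agent.H49.Ent Pool.Agent.H32.Dense Pool.STK Pool.KA

variable {Ω S T : Type} [Fintype Ω] {p : Ω → ℝ}

open Classical in
lemma Pr_eq (p : Ω → ℝ) (E : Set Ω) : Pr p E = ∑ ω, if ω ∈ E then p ω else 0 := by
  unfold Pr law
  refine Finset.sum_congr rfl fun ω _ => ?_
  by_cases h : ω ∈ E <;> simp [h]

lemma Pr_nonneg (hp : ∀ ω, 0 ≤ p ω) (E : Set Ω) : 0 ≤ Pr p E := law_nonneg hp _ _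

lemma Pr_mono (hp : ∀ ω, 0 ≤ p ω) {E E' : Set Ω} (h : ∀ ω ∈ E, 0 < p ω → ω ∈ E') :
    Pr p E ≤ Pr p E' := by
  classical
  rw [Pr_eq, Pr_eq]
  refine Finset.sum_le_sum fun ω _ => ?_
  rcases (hp ω).eq_or_lt with h0 | h0
  · rw [← h0]
    split_ifs <;> simp
  · by_cases h1 : ω ∈ E
    · rw [if_pos h1, if_pos (h ω h1 h0)]
    · rw [if_neg h1]
      split_ifs
      · exact hp ω
      · exact le_rfl

lemma Pr_le_one (hp : IsLaw p) (E : Set Ω) : Pr p E ≤ 1 := by
  have := law_le_total hp.nonneg (fun ω => ω ∈ E) True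
  rw [hp.sum_one] at this
  exact this

lemma Pr_univ (hp : IsLaw p) : Pr p Set.univ = 1 := by
  classical
  rw [Pr_eq]
  simp [hp.sum_one]

lemma cut_nonneg (hp : ∀ ω, 0 ≤ p ω) (E : Set Ω) (ω : Ω) : 0 ≤ cut p E ω :=
  cond_nonneg hp _ _ ω

lemma cut_law (hp : IsLaw p) {E : Set Ω} (h : 0 < Pr p E) : IsLaw (cut p E) :=
  ⟨cut_nonneg hp.nonneg E, sum_cond p _ h.ne'⟩

lemma cut_pos (hp : ∀ ω, 0 ≤ p ω) {E : Set Ω} {ω : Ω} : 0 < cut p E ω ↔ 0 < p ω ∧ ω ∈ E := by
  unfold cut
  rw [cond_pos_iff hp]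
  simp

/-- Conditioned probabilities. -/
lemma law_cut_le (hp : ∀ ω, 0 ≤ p ω) (E : Set Ω) (f : Ω → S) (s : S) :
    law (cut p E) f s ≤ law p f s / Pr p E := by
  unfold cut
  rw [law_cond]
  refine div_le_div_of_nonneg_right ?_ (Pr_nonneg hp E)
  classical
  unfold law
  refine Finset.sum_le_sum fun ω _ => ?_
  simp only [Prod.mk.injEq]
  by_cases h1 : f ω = s
  · rw [if_pos h1]
    split_ifs
    · exact le_rfl
    · exact hp ω
  · rw [if_neg h1, if_neg (fun h => h1 h.1)]

/-- Entropy of a variable whose probabilities are small. -/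
lemma le_H (hp : IsLaw p) (f : Ω → S) {h : ℝ} (hm : ∀ ω, 0 < p ω → law p f (f ω) ≤ exp (-h)) :
    h ≤ H p f := by
  have h1 : H p f = Ex p (fun ω => -Real.log (law p f (f ω))) := by
    unfold H Ex
    rw [← Finset.sum_neg_distrib]
    exact Finset.sum_congr rfl fun ω _ => by ring
  rw [h1, ← Ex_const hp.sum_one h]
  refine Ex_mono hp.nonneg fun ω hω => ?_
  have h2 := Real.log_le_log (law_pos hp.nonneg f hω) (hm ω hω)
  rw [Real.log_exp] at h2
  linarith

theorem reg_thm : REGStmt := by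
  intro Ω S _ p f h e hp hr
  obtain ⟨s, hs, hc⟩ := hr.supp
  refine ⟨?_, fun E a hE => ?_⟩
  · have h1 : H p f ≤ h + e := by
      have h2 := H_le_log_card hp.nonneg hp.sum_one f (F := s) hs
      obtain ⟨ω, hω⟩ : ∃ ω, 0 < p ω := by
        by_contra hcon
        push Not at hcon
        have : ∑ ω, p ω ≤ 0 := Finset.sum_nonpos fun ω _ => hcon ω
        rw [hp.sum_one] at this
        linarith
      have h3 : (0 : ℝ) < s.card := by
        have : 0 < s.card := Finset.card_pos.mpr ⟨_, hs ω hω⟩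
        exact_mod_cast this
      have h4 := Real.log_le_log h3 hc
      rw [Real.log_exp] at h4
      linarith
    have h2 : h - e ≤ H p f := le_H hp f hr.mass
    rw [abs_le]
    constructor <;> linarith
  · have h0 : 0 < Pr p E := lt_of_lt_of_le (Real.exp_pos _) hE
    refine ⟨cut_law hp h0, ⟨s, fun ω hω => hs ω ((cut_pos hp.nonneg).mp hω).1, ?_⟩,
      fun ω hω => ?_⟩
    · refine hc.trans (Real.exp_le_exp.mpr ?_)
      have h1 : Real.exp (-a) ≤ 1 := hE.trans (Pr_le_one hp E)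
      rw [Real.exp_le_one_iff] at h1
      linarith
    · have h1 := (cut_pos hp.nonneg).mp hω
      refine (law_cut_le hp.nonneg E f (f ω)).trans ?_
      rw [div_le_iff₀ h0]
      refine (hr.mass ω h1.1).trans ?_
      have h2 : Real.exp (-(h - e)) = Real.exp (-(h - (e + a))) * Real.exp (-a) := by
        rw [← Real.exp_add]
        ring_nf
      rw [h2]
      exact mul_le_mul_of_nonneg_left hE (Real.exp_pos _).le

theorem rch_thm : RCHStmt := by
  intro Ω S T _ p f g h h' e a E hp h1 h2 hE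
  have a1 := reg_thm Ω _ p _ h e hp h1
  have a2 := reg_thm Ω _ p _ h' e hp h2
  obtain ⟨b1, b2⟩ := a1.2 E a hE
  obtain ⟨c1, c2⟩ := a2.2 E a hE
  have d1 := (reg_thm Ω _ (cut p E) _ h (e + a) b1 b2).1
  have d2 := (reg_thm Ω _ (cut p E) _ h' (e + a) c1 c2).1
  have e1 := a1.1
  have e2 := a2.1
  unfold CH
  rw [abs_le] at *
  constructor <;> linarith [d1.1, d1.2, d2.1, d2.2, e1.1, e1.2, e2.1, e2.2]

/-- Cross entropy dominates entropy. -/
lemma H_le_cross (hp : IsLaw p) (f : Ω → S) (q : S → ℝ) (hq : ∀ ω, 0 < p ω → 0 < q (f ω))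
    (hq0 : ∀ s, 0 ≤ q s) (hsum : ∀ F : Finset S, ∑ s ∈ F, q s ≤ 1) :
    H p f ≤ Ex p (fun ω => -Real.log (q (f ω))) := by
  have h := CH_le_cross hp.nonneg hp.sum_one f (fun _ => ()) (fun _ s => q s)
    (fun ω hω => hq ω hω) (fun _ s => hq0 s) (fun _ _ F => hsum F)
  have h2 : CH p f (fun _ => ()) = H p f := by
    unfold CH
    rw [H_const hp.sum_one (), sub_zero]
    refine H_congr hp.nonneg ?_ ?_
    · intro ω ω' _ _ hh
      exact Prod.ext hh rfl
    · intro ω ω' _ _ hh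
      exact (Prod.ext_iff.mp hh).1
  rw [← h2]
  exact h

lemma sum_law_le (hp : IsLaw p) (f : Ω → S) (F : Finset S) : ∑ s ∈ F, law p f s ≤ 1 := by
  classical
  have h1 : ∑ s ∈ F, law p f s ≤ ∑ s ∈ F ∪ univ.image f, law p f s :=
    Finset.sum_le_sum_of_subset_of_nonneg Finset.subset_union_left
      (fun s _ _ => law_nonneg hp.nonneg f s)
  have h2 : ∑ s ∈ F ∪ univ.image f, law p f s = ∑ s ∈ univ.image f, law p f s := by
    symm
    refine Finset.sum_subset Finset.subset_union_right fun s _ hs => ?_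
    exact law_eq_zero_of_notMem p f hs
  rw [h2, sum_law, hp.sum_one] at h1
  exact h1

theorem cue_thm : CUEStmt := by
  intro Ω S T _ p f g h a E hp hm hE
  have h0 : 0 < Pr p E := lt_of_lt_of_le (Real.exp_pos _) hE
  have hq := cut_law hp h0
  have hlP : -a ≤ Real.log (Pr p E) := by
    have := Real.log_le_log (Real.exp_pos _) hE
    rwa [Real.log_exp] at this
  set q := cut p E with hqd
  have hH1 : H q (fun ω => (f ω, g ω)) =
      Ex q (fun ω => -Real.log (law q (fun ω => (f ω, g ω)) (f ω, g ω))) := by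
    unfold H Ex
    rw [← Finset.sum_neg_distrib]
    exact Finset.sum_congr rfl fun ω _ => by ring
  have hH2 := H_le_cross hq g (fun s => law p g s)
    (fun ω hω => law_pos hp.nonneg g ((cut_pos hp.nonneg).mp hω).1)
    (fun s => law_nonneg hp.nonneg g s) (fun F => sum_law_le hp g F)
  have hH3 : h - a + Ex q (fun ω => -Real.log (law p g (g ω))) ≤
      Ex q (fun ω => -Real.log (law q (fun ω => (f ω, g ω)) (f ω, g ω))) := by
    rw [← Ex_const hq.sum_one (h - a), ← Ex_add]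
    refine Ex_mono hq.nonneg fun ω hω => ?_
    have h1 := (cut_pos hp.nonneg).mp hω
    have h2 : law q (fun ω => (f ω, g ω)) (f ω, g ω) ≤
        Real.exp (-h) * law p g (g ω) / Pr p E :=
      (law_cut_le hp.nonneg E _ _).trans (div_le_div_of_nonneg_right (hm ω h1.1) h0.le)
    have h3 : 0 < law q (fun ω => (f ω, g ω)) (f ω, g ω) :=
      law_pos hq.nonneg (fun ω => (f ω, g ω)) hω
    have h4 := Real.log_le_log h3 h2
    have h5 : 0 < law p g (g ω) := law_pos hp.nonneg g h1.1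
    rw [Real.log_div (mul_pos (Real.exp_pos _) h5).ne' h0.ne',
      Real.log_mul (Real.exp_pos _).ne' h5.ne', Real.log_exp] at h4
    linarith
  unfold CH
  linarith

end Pool.KS2
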