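import Pool.Agent.H9.KA.Stmts

/-!
# Restriction of finite laws to events: definitions and statements

Entropies are in natural units. An event is a set `E` in the sample space; `cut p E` is the law
conditioned on `E`.
-/

set_option autoImplicit false

namespace Pool.KS2

open Finset Real
open Pool.Agent.H49.Ent Pool.Agent.H32.Dense Pool.STK Pool.KA

/-- The probability of an event. -/
noncomputable def Pr {Ω : Type} [Fintype Ω] (p : Ω → ℝ) (E : Set Ω) : ℝ :=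
  law p (fun ω => ω ∈ E) True

/-- The law conditioned on an event. -/
noncomputable def cut {Ω : Type} [Fintype Ω] (p : Ω → ℝ) (E : Set Ω) : Ω → ℝ :=
  cond p (fun ω => ω ∈ E) True

/-- The family conditioned on an event of positive probability. -/
noncomputable def fcut {m J : ℕ} (F : Fam m J) (E : Set F.Ω) (h : IsLaw (cut F.p E)) : Fam m J :=
  F.res (fun ω => ω ∈ E) True h

/-- A regular random variable: `exp h` values of probabilities `exp (-h)`, up to factors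
`exp e`. -/
structure Reg {Ω S : Type} [Fintype Ω] (p : Ω → ℝ) (f : Ω → S) (h e : ℝ) : Prop where
  supp : ∃ s : Finset S, (∀ ω, 0 < p ω → f ω ∈ s) ∧ (s.card : ℝ) ≤ Real.exp (h + e)
  mass : ∀ ω, 0 < p ω → law p f (f ω) ≤ Real.exp (-(h - e))

/-- Regularity is inherited by events which are not too small. -/
def REGStmt : Prop :=
  ∀ (Ω S : Type) [Fintype Ω] (p : Ω → ℝ) (f : Ω → S) (h e : ℝ), IsLaw p → Reg p f h e →
    |H p f - h| ≤ e ∧ ∀ (E : Set Ω) (a : ℝ), Real.exp (-a) ≤ Pr p E →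
      IsLaw (cut p E) ∧ Reg (cut p E) f h (e + a)

/-- Conditional entropies of regular variables are stable. -/
def RCHStmt : Prop :=
  ∀ (Ω S T : Type) [Fintype Ω] (p : Ω → ℝ) (f : Ω → S) (g : Ω → T) (h h' e a : ℝ) (E : Set Ω),
    IsLaw p → Reg p (fun ω => (f ω, g ω)) h e → Reg p g h' e → Real.exp (-a) ≤ Pr p E →
    |CH (cut p E) f g - CH p f g| ≤ 4 * e + 2 * a

/-- Existence of regular parts: a partition into few parts and a small remainder, such that all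
variables are regular on the parts which are not small. -/
def TYPStmt : Prop :=
  ∀ (Ω : Type) [Fintype Ω] (p : Ω → ℝ) (N : ℕ) (S : Fin N → Type) (f : ∀ i, Ω → S i)
    (c s e : ℝ), IsLaw p → 0 < e → 0 ≤ c → 0 ≤ s →
    (∀ i, ∃ v : Finset (S i), (∀ ω, 0 < p ω → f i ω ∈ v) ∧ (v.card : ℝ) ≤ Real.exp c) →
    ∃ (K : ℕ) (τ : Ω → Option (Fin K)), (K : ℝ) ≤ ((c + s) / e + 2) ^ N ∧
      law p τ none ≤ N * Real.exp (-s) ∧
      ∀ k, Real.exp (-e) ≤ law p τ (some k) → ∀ i, ∃ h, Reg (cond p τ (some k)) (f i) h (2 * e)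

/-- From a small conditional entropy to a function: on an event which is not too small `f` is a
function of `g`. -/
def FUNStmt : Prop :=
  ∀ (Ω S T : Type) [Fintype Ω] (p : Ω → ℝ) (f : Ω → S) (g : Ω → T), IsLaw p →
    ∃ E : Set Ω, (∀ ω ω', f ω = f ω' → g ω = g ω' → (ω ∈ E ↔ ω' ∈ E)) ∧
      Real.exp (-CH p f g) ≤ Pr p E ∧ (∀ ω ∈ E, ∀ ω' ∈ E, g ω = g ω' → f ω = f ω') ∧
      Pr (dbl p g) {w | f w.1 = f w.2} ≤ Pr p E

/-- Conditional entropies under restriction, when the conditional law is pointwise small. -/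
def CUEStmt : Prop :=
  ∀ (Ω S T : Type) [Fintype Ω] (p : Ω → ℝ) (f : Ω → S) (g : Ω → T) (h a : ℝ) (E : Set Ω),
    IsLaw p → (∀ ω, 0 < p ω → law p (fun ω => (f ω, g ω)) (f ω, g ω) ≤
      Real.exp (-h) * law p g (g ω)) → Real.exp (-a) ≤ Pr p E →
    h - a ≤ CH (cut p E) f g

/-- Most values have a small conditional probability, if the conditional entropy is almost
maximal. -/
def CUMStmt : Prop :=
  ∀ (Ω S T : Type) [Fintype Ω] (p : Ω → ℝ) (f : Ω → S) (g : Ω → T) (h e a : ℝ) (v : Finset S),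
    IsLaw p → (∀ ω, 0 < p ω → f ω ∈ v) → (v.card : ℝ) ≤ Real.exp h → h - e ≤ CH p f g → 0 < a →
    1 - (e + 1) / a ≤ Pr p {ω | law p (fun ω => (f ω, g ω)) (f ω, g ω) ≤
      Real.exp (-(h - a)) * law p g (g ω)}

/-- **Stabilisation.** For every hereditary function `Φ` of events with `n` values there is an
event which is not too small, on which `Φ` is stable. -/
def STBStmt : Prop :=
  ∀ (Ω : Type) [Fintype Ω] (p : Ω → ℝ) (n : ℕ) (Φ : Set Ω → ℕ) (κ : ℕ → ℝ), IsLaw p → 0 < n →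
    (∀ E, 0 < Pr p E → Φ E < n) → (∀ E E', E' ⊆ E → 0 < Pr p E' → Φ E' ≤ Φ E) →
    (∀ j, κ (j + 1) ≤ κ j) → (∀ j, 0 ≤ κ j) →
    ∃ j < n, ∃ E : Set Ω, Real.exp (-κ (j + 1)) ≤ Pr p E ∧
      ∀ E' ⊆ E, Real.exp (-κ j) ≤ Pr p E' → Φ E' = Φ E

/-- The time deficit of a restricted family. -/
def TIMStmt : Prop :=
  ∀ (m J : ℕ) (F : Fam m J) (e a : ℝ) (E : Set F.Ω) (h : IsLaw (cut F.p E)),
    (∀ ω, 0 < F.p ω → law F.p (fun ω => (F.T ω, F.l ω, F.Z ω)) (F.T ω, F.l ω, F.Z ω) ≤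
      Real.exp (-(J * Real.log 2 - e)) * law F.p (fun ω => (F.l ω, F.Z ω)) (F.l ω, F.Z ω)) →
    Real.exp (-a) ≤ Pr F.p E → (fcut F E h).Tm (e + a)

/-- Violations of restricted regular families. -/
def VIOStmt : Prop :=
  ∀ (m J j : ℕ) (F : Fam m J) (e a : ℝ) (E : Set F.Ω) (h : IsLaw (cut F.p E)),
    (∃ h₁, Reg F.p (fun ω => (F.D J ω, F.Z ω)) h₁ e) → (∃ h₂, Reg F.p F.Z h₂ e) →
    (∃ h₃, Reg F.p (fun ω => (F.X j ω, F.W ω)) h₃ e) → (∃ h₄, Reg F.p F.W h₄ e) →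
    Real.exp (-a) ≤ Pr F.p E → |(fcut F E h).V j - F.V j| ≤ 8 * e + 4 * a

end Pool.KS2
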