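import Pool.Agent.H25.KS2.Basic

/-!
# Restriction of finite laws to events: functions, types, stabilisation
-/

set_option autoImplicit false

namespace Pool.KS2

open Finset Real
open Pool.Agent.H49.Ent Pool.Agent.H32.Dense Pool.STK Pool.KA

section

variable {Ω S T : Type} [Fintype Ω] {p : Ω → ℝ}

/-- Markov inequality. -/
lemma markov (hp : IsLaw p) (X : Ω → ℝ) (h0 : ∀ ω, 0 < p ω → 0 ≤ X ω) {a : ℝ} (ha : 0 < a) :
    Pr p {ω | a < X ω} ≤ Ex p X / a := by
  classical
  rw [le_div_iff₀ ha, Pr_eq, Finset.sum_mul]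
  unfold Ex
  refine Finset.sum_le_sum fun ω _ => ?_
  rcases (hp.nonneg ω).eq_or_lt with h | h
  · rw [← h]
    split_ifs <;> simp
  · by_cases h1 : ω ∈ {ω | a < X ω}
    · rw [if_pos h1]
      exact mul_le_mul_of_nonneg_left (le_of_lt h1) h.le
    · rw [if_neg h1, zero_mul]
      exact mul_nonneg h.le (h0 ω h)

lemma Pr_compl (hp : IsLaw p) (E : Set Ω) : Pr p Eᶜ = 1 - Pr p E := by
  classical
  rw [Pr_eq, Pr_eq, ← hp.sum_one, ← Finset.sum_sub_distrib]
  refine Finset.sum_congr rfl fun ω _ => ?_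
  by_cases h : ω ∈ E
  · have h' : ω ∉ Eᶜ := fun h' => h' h
    rw [if_neg h', if_pos h, sub_self]
  · have h' : ω ∈ Eᶜ := h
    rw [if_pos h', if_neg h, sub_zero]

/-- The most likely value of `f` given `g`. -/
lemma exists_mode (hp : ∀ ω, 0 ≤ p ω) (f : Ω → S) (g : Ω → T) (z : T) (hz : ∃ ω, g ω = z) :
    ∃ s : S, ∀ s', law p (fun ω => (f ω, g ω)) (s', z) ≤ law p (fun ω => (f ω, g ω)) (s, z) := by
  classical
  obtain ⟨ω₀, _⟩ := hz
  obtain ⟨s, hs, hm⟩ := Finset.exists_max_image (univ.image f)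
    (fun s => law p (fun ω => (f ω, g ω)) (s, z)) ⟨f ω₀, Finset.mem_image_of_mem _ (mem_univ _)⟩
  refine ⟨s, fun s' => ?_⟩
  by_cases h : s' ∈ univ.image f
  · exact hm s' h
  · have h0 : law p (fun ω => (f ω, g ω)) (s', z) = 0 := by
      refine law_eq_zero_of_notMem p _ fun h' => h ?_
      obtain ⟨ω, _, hω⟩ := Finset.mem_image.mp h'
      exact Finset.mem_image.mpr ⟨ω, mem_univ _, (Prod.ext_iff.mp hω).1⟩
    rw [h0]
    exact law_nonneg hp _ _

open Classical in
/-- The mode, as a function. -/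
noncomputable def mode (p : Ω → ℝ) (f : Ω → S) (g : Ω → T) (z : T) : Option S :=
  if h : ∃ s : S, ∀ s', law p (fun ω => (f ω, g ω)) (s', z) ≤ law p (fun ω => (f ω, g ω)) (s, z)
  then some h.choose else none

lemma mode_spec (hp : ∀ ω, 0 ≤ p ω) (f : Ω → S) (g : Ω → T) (ω : Ω) :
    ∃ s, mode p f g (g ω) = some s ∧ ∀ s', law p (fun ω => (f ω, g ω)) (s', g ω) ≤
      law p (fun ω => (f ω, g ω)) (s, g ω) := by
  have h := exists_mode hp f g (g ω) ⟨ω, rfl⟩
  refine ⟨h.choose, ?_, h.choose_spec⟩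
  unfold mode
  rw [dif_pos h]

/-- The event that `f` takes its most likely value given `g`. -/
def modeEv (p : Ω → ℝ) (f : Ω → S) (g : Ω → T) : Set Ω := {ω | mode p f g (g ω) = some (f ω)}

/-- The conditional probability of the mode. -/
noncomputable def modeP (p : Ω → ℝ) (f : Ω → S) (g : Ω → T) (z : T) : ℝ :=
  match mode p f g z with
  | some s => law p (fun ω => (f ω, g ω)) (s, z) / law p g z
  | none => 0

lemma le_modeP (hp : ∀ ω, 0 ≤ p ω) (f : Ω → S) (g : Ω → T) (ω : Ω) (s' : S) :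
    law p (fun ω => (f ω, g ω)) (s', g ω) / law p g (g ω) ≤ modeP p f g (g ω) := by
  obtain ⟨s, h1, h2⟩ := mode_spec hp f g ω
  unfold modeP
  rw [h1]
  exact div_le_div_of_nonneg_right (h2 s') (law_nonneg hp g _)

lemma Pr_modeEv (hp : ∀ ω, 0 ≤ p ω) (f : Ω → S) (g : Ω → T) :
    Pr p (modeEv p f g) = Ex p (fun ω => modeP p f g (g ω)) := by
  classical
  have h1 : Ex p (fun ω => modeP p f g (g ω)) =
      ∑ z ∈ univ.image g, law p g z * modeP p f g z := sum_mul_eq_sum_image p g (modeP p f g)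
  have h2 : Pr p (modeEv p f g) = ∑ z ∈ univ.image g,
      ∑ ω, if g ω = z then (if ω ∈ modeEv p f g then p ω else 0) else 0 := by
    rw [Pr_eq, Finset.sum_comm]
    refine Finset.sum_congr rfl fun ω _ => ?_
    rw [Finset.sum_eq_single (g ω)]
    · simp
    · intro z _ hz
      rw [if_neg (Ne.symm hz)]
    · intro h
      exact absurd (Finset.mem_image_of_mem g (mem_univ ω)) h
  rw [h1, h2]
  refine Finset.sum_congr rfl fun z hz => ?_
  obtain ⟨ω₀, _, rfl⟩ := Finset.mem_image.mp hz
  obtain ⟨s, hs1, hs2⟩ := mode_spec hp f g ω₀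
  have h3 : (∑ ω, if g ω = g ω₀ then (if ω ∈ modeEv p f g then p ω else 0) else 0) =
      law p (fun ω => (f ω, g ω)) (s, g ω₀) := by
    unfold law
    refine Finset.sum_congr rfl fun ω _ => ?_
    by_cases hg : g ω = g ω₀
    · have h4 : (ω ∈ modeEv p f g) ↔ f ω = s := by
        unfold modeEv
        simp only [Set.mem_ofPred_eq, hg, hs1, Option.some.injEq]
        exact eq_comm
      by_cases hf : f ω = s
      · simp [hg, h4, hf]
      · simp [hg, h4, hf]
    · simp [hg]
  rw [h3]
  unfold modeP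
  rw [hs1]
  by_cases h0 : law p g (g ω₀) = 0
  · have h5 : law p (fun ω => (f ω, g ω)) (s, g ω₀) ≤ law p g (g ω₀) := by
      unfold law
      refine Finset.sum_le_sum fun ω _ => ?_
      by_cases hg : g ω = g ω₀
      · rw [if_pos hg]
        split_ifs
        · exact le_rfl
        · exact hp ω
      · rw [if_neg hg, if_neg (fun h => hg (Prod.ext_iff.mp h).2)]
    rw [h0] at h5
    have h6 := law_nonneg hp (fun ω => (f ω, g ω)) (s, g ω₀)
    simp only [h0, zero_mul]
    linarith
  · simp only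
    field_simp

/-- Jensen inequality for the logarithm. -/
lemma jensen_log (hp : IsLaw p) (X : Ω → ℝ) (h0 : ∀ ω, 0 < p ω → 0 < X ω) :
    Ex p (fun ω => Real.log (X ω)) ≤ Real.log (Ex p X) := by
  obtain ⟨ω₀, hω₀⟩ : ∃ ω, 0 < p ω := by
    by_contra hcon
    push Not at hcon
    have : ∑ ω, p ω ≤ 0 := Finset.sum_nonpos fun ω _ => hcon ω
    rw [hp.sum_one] at this
    linarith
  have hc : 0 < Ex p X := by
    unfold Ex
    refine Finset.sum_pos' (fun ω _ => ?_) ⟨ω₀, mem_univ _, mul_pos hω₀ (h0 ω₀ hω₀)⟩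
    rcases (hp.nonneg ω).eq_or_lt with h | h
    · rw [← h, zero_mul]
    · exact (mul_pos h (h0 ω h)).le
  have h1 : Ex p (fun ω => Real.log (X ω)) ≤
      Ex p (fun ω => (Real.log (Ex p X) - 1) + (1 / Ex p X) * X ω) := by
    refine Ex_mono hp.nonneg fun ω hω => ?_
    have h2 := Real.log_le_sub_one_of_pos (x := X ω / Ex p X) (div_pos (h0 ω hω) hc)
    rw [Real.log_div (h0 ω hω).ne' hc.ne'] at h2
    have h3 : 1 / Ex p X * X ω = X ω / Ex p X := by ring
    rw [h3]
    linarith
  rw [Ex_add, Ex_smul, Ex_const hp.sum_one, one_div, inv_mul_cancel₀ hc.ne'] at h1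
  linarith

end

theorem fun_thm : FUNStmt := by
  classical
  intro Ω S T _ p f g hp
  refine ⟨modeEv p f g, ?_, ?_, ?_, ?_⟩
  · intro ω ω' h1 h2
    unfold modeEv
    simp only [Set.mem_ofPred_eq, h1, h2]
  · rw [Pr_modeEv hp.nonneg]
    have hpos : ∀ ω, 0 < p ω → 0 < modeP p f g (g ω) := fun ω hω =>
      lt_of_lt_of_le (div_pos (law_pos hp.nonneg (fun ω => (f ω, g ω)) hω)
        (law_pos hp.nonneg g hω)) (le_modeP hp.nonneg f g ω (f ω))
    have h1 := jensen_log hp (fun ω => modeP p f g (g ω)) hpos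
    have h2 : -CH p f g ≤ Ex p (fun ω => Real.log (modeP p f g (g ω))) := by
      rw [CH_eq_neg_sum hp.nonneg]
      have h3 : -Ex p (fun ω => -Real.log (law p (fun ω => (f ω, g ω)) (f ω, g ω) /
          law p g (g ω))) = Ex p (fun ω => Real.log (law p (fun ω => (f ω, g ω)) (f ω, g ω) /
          law p g (g ω))) := by
        unfold Ex
        rw [← Finset.sum_neg_distrib]
        exact Finset.sum_congr rfl fun ω _ => by ring
      rw [h3]
      refine Ex_mono hp.nonneg fun ω hω => ?_
      exact Real.log_le_log (div_pos (law_pos hp.nonneg (fun ω => (f ω, g ω)) hω)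
        (law_pos hp.nonneg g hω)) (le_modeP hp.nonneg f g ω (f ω))
    have hc : 0 < Ex p (fun ω => modeP p f g (g ω)) := by
      obtain ⟨ω₀, hω₀⟩ : ∃ ω, 0 < p ω := by
        by_contra hcon
        push Not at hcon
        have : ∑ ω, p ω ≤ 0 := Finset.sum_nonpos fun ω _ => hcon ω
        rw [hp.sum_one] at this
        linarith
      unfold Ex
      refine Finset.sum_pos' (fun ω _ => ?_) ⟨ω₀, mem_univ _, mul_pos hω₀ (hpos ω₀ hω₀)⟩
      rcases (hp.nonneg ω).eq_or_lt with h | h
      · rw [← h, zero_mul]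
      · exact (mul_pos h (hpos ω h)).le
    rw [← Real.le_log_iff_exp_le hc]
    linarith
  · intro ω hω ω' hω' h
    unfold modeEv at hω hω'
    simp only [Set.mem_ofPred_eq] at hω hω'
    rw [h, hω'] at hω
    exact (Option.some.inj hω).symm
  · rw [Pr_modeEv hp.nonneg, Pr_eq]
    have h1 : ∀ ω, p ω * modeP p f g (g ω) ≥
        ∑ ω', if f ω = f ω' then dbl p g (ω, ω') else 0 := by
      intro ω
      rcases (hp.nonneg ω).eq_or_lt with h | h
      · have h2 : ∀ ω', dbl p g (ω, ω') = 0 := by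
          intro ω'
          unfold dbl glue
          simp [← h]
        rw [← h, zero_mul]
        simp [h2]
      · have h3 : ∑ ω', (if f ω = f ω' then dbl p g (ω, ω') else 0) =
            p ω * (law p (fun ω => (f ω, g ω)) (f ω, g ω) / law p g (g ω)) := by
          unfold law
          rw [Finset.sum_div, Finset.mul_sum]
          refine Finset.sum_congr rfl fun ω' _ => ?_
          unfold dbl glue
          simp only [Prod.mk.injEq]
          by_cases h4 : f ω = f ω' <;> by_cases h5 : g ω = g ω'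
          · rw [if_pos h4, if_pos h5, if_pos ⟨h4.symm, h5.symm⟩, h5]
            unfold law
            ring
          · rw [if_pos h4, if_neg h5, if_neg (fun h6 => h5 h6.2.symm)]
            simp
          · rw [if_neg h4, if_neg (fun h6 => h4 h6.1.symm)]
            simp
          · rw [if_neg h4, if_neg (fun h6 => h4 h6.1.symm)]
            simp
        rw [h3]
        exact mul_le_mul_of_nonneg_left (le_modeP hp.nonneg f g ω (f ω)) h.le
    rw [Fintype.sum_prod_type]
    unfold Ex
    refine Finset.sum_le_sum fun ω _ => ?_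
    simpa using h1 ω

end Pool.KS2
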