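import Pool.Agent.H25.KS2.Main

/-!
# Restriction of finite laws to events: types and stabilisation
-/

set_option autoImplicit false

namespace Pool.KS2

open Finset Real
open Pool.Agent.H49.Ent Pool.Agent.H32.Dense Pool.STK Pool.KA

section

variable {Ω S T : Type} [Fintype Ω] {p : Ω → ℝ}

lemma sum_ratio_le (hp : ∀ ω, 0 ≤ p ω) (h1 : ∑ ω, p ω = 1) (f : Ω → S) (g : Ω → T)
    (v : Finset S) (hv : ∀ ω, 0 < p ω → f ω ∈ v) :
    Ex p (fun ω => law p g (g ω) / law p (fun ω => (f ω, g ω)) (f ω, g ω)) ≤ v.card := by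
  classical
  have e1 : Ex p (fun ω => law p g (g ω) / law p (fun ω => (f ω, g ω)) (f ω, g ω)) =
      ∑ z ∈ univ.image (fun ω => (f ω, g ω)), law p (fun ω => (f ω, g ω)) z *
        (law p g z.2 / law p (fun ω => (f ω, g ω)) z) :=
    sum_mul_eq_sum_image p (fun ω => (f ω, g ω))
      (fun z => law p g z.2 / law p (fun ω => (f ω, g ω)) z)
  rw [e1]
  have e2 : ∀ z ∈ univ.image (fun ω => (f ω, g ω)), law p (fun ω => (f ω, g ω)) z *
        (law p g z.2 / law p (fun ω => (f ω, g ω)) z) ≤ if z.1 ∈ v then law p g z.2 else 0 := by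
    intro z _
    rcases (law_nonneg hp (fun ω => (f ω, g ω)) z).eq_or_lt with h0 | h0
    · rw [← h0, zero_mul]
      split_ifs
      · exact law_nonneg hp _ _
      · exact le_rfl
    · have hz : z.1 ∈ v := by
        by_contra hcon
        have : law p (fun ω => (f ω, g ω)) z = 0 := by
          unfold law
          refine Finset.sum_eq_zero fun ω _ => ?_
          split_ifs with h
          · refine le_antisymm (not_lt.mp fun h' => hcon ?_) (hp ω)
            rw [← h]
            exact hv ω h'
          · rfl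
        rw [this] at h0
        exact lt_irrefl _ h0
      rw [if_pos hz, mul_div_cancel₀ _ h0.ne']
  refine (Finset.sum_le_sum e2).trans ?_
  rw [← Finset.sum_filter]
  have e3 : ∑ z ∈ (univ.image (fun ω => (f ω, g ω))).filter (fun z => z.1 ∈ v), law p g z.2 ≤
      ∑ z ∈ v ×ˢ (univ.image g), law p g z.2 := by
    refine Finset.sum_le_sum_of_subset_of_nonneg ?_ (fun z _ _ => law_nonneg hp _ _)
    intro z hz
    obtain ⟨hz1, hz2⟩ := Finset.mem_filter.mp hz
    obtain ⟨ω, _, rfl⟩ := Finset.mem_image.mp hz1
    exact Finset.mem_product.mpr ⟨hz2, Finset.mem_image_of_mem _ (mem_univ _)⟩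
  refine e3.trans ?_
  rw [Finset.sum_product]
  simp only [sum_law, h1, Finset.sum_const, nsmul_eq_mul, mul_one, le_refl]

end

theorem cum_thm : CUMStmt := by
  intro Ω S T _ p f g h e a v hp hv hc hH ha
  set P : Ω → ℝ := fun ω => law p (fun ω => (f ω, g ω)) (f ω, g ω) / law p g (g ω) with hP
  have hPpos : ∀ ω, 0 < p ω → 0 < P ω := fun ω hω =>
    div_pos (law_pos hp.nonneg (fun ω => (f ω, g ω)) hω) (law_pos hp.nonneg g hω)
  have h1 : Ex p (fun ω => h + Real.log (P ω)) ≤ e := by
    rw [Ex_add, Ex_const hp.sum_one]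
    have h2 := CH_eq_neg_sum hp.nonneg f g
    have h3 : Ex p (fun ω => -Real.log (law p (fun ω => (f ω, g ω)) (f ω, g ω) /
        law p g (g ω))) = -Ex p (fun ω => Real.log (P ω)) := by
      unfold Ex
      rw [← Finset.sum_neg_distrib]
      exact Finset.sum_congr rfl fun ω _ => by ring
    rw [h3] at h2
    linarith
  have h2 : Ex p (fun ω => max (h + Real.log (P ω)) 0) ≤ e + 1 := by
    have h3 : Ex p (fun ω => max (h + Real.log (P ω)) 0) ≤
        Ex p (fun ω => (h + Real.log (P ω)) + Real.exp (-h) *
          (law p g (g ω) / law p (fun ω => (f ω, g ω)) (f ω, g ω))) := by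
      refine Ex_mono hp.nonneg fun ω hω => ?_
      have h4 : law p g (g ω) / law p (fun ω => (f ω, g ω)) (f ω, g ω) =
          Real.exp (-Real.log (P ω)) := by
        rw [Real.exp_neg, Real.exp_log (hPpos ω hω), hP, inv_div]
      rw [h4, ← Real.exp_add]
      have h5 := Real.add_one_le_exp (-h + -Real.log (P ω))
      refine max_le ?_ ?_
      · linarith [Real.exp_pos (-h + -Real.log (P ω))]
      · linarith
    rw [Ex_add, Ex_smul] at h3
    have h6 := sum_ratio_le hp.nonneg hp.sum_one f g v hv
    have h7 : Real.exp (-h) * Ex p (fun ω => law p g (g ω) /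
        law p (fun ω => (f ω, g ω)) (f ω, g ω)) ≤ 1 := by
      have h8 : Real.exp (-h) * Ex p (fun ω => law p g (g ω) /
          law p (fun ω => (f ω, g ω)) (f ω, g ω)) ≤ Real.exp (-h) * Real.exp h :=
        mul_le_mul_of_nonneg_left (h6.trans hc) (Real.exp_pos _).le
      rw [← Real.exp_add, neg_add_cancel, Real.exp_zero] at h8
      exact h8
    linarith
  have h3 := markov hp (fun ω => max (h + Real.log (P ω)) 0) (fun ω _ => le_max_right _ _) ha
  have h4 := Pr_compl hp {ω | a < max (h + Real.log (P ω)) 0}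
  have h5 : Pr p ({ω | a < max (h + Real.log (P ω)) 0}ᶜ) ≤
      Pr p {ω | law p (fun ω => (f ω, g ω)) (f ω, g ω) ≤
      Real.exp (-(h - a)) * law p g (g ω)} := by
    refine Pr_mono hp.nonneg fun ω hω hpω => ?_
    have h6 : ¬ a < max (h + Real.log (P ω)) 0 := hω
    have h7 : h + Real.log (P ω) ≤ a := (le_max_left _ _).trans (not_lt.mp h6)
    have h8 : P ω ≤ Real.exp (-(h - a)) := by
      rw [← Real.log_le_iff_le_exp (hPpos ω hpω)]
      linarith
    have h9 : 0 < law p g (g ω) := law_pos hp.nonneg g hpω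
    rw [hP] at h8
    simp only at h8
    rw [div_le_iff₀ h9] at h8
    exact h8
  have h6 : Ex p (fun ω => max (h + Real.log (P ω)) 0) / a ≤ (e + 1) / a :=
    div_le_div_of_nonneg_right h2 ha.le
  linarith

theorem stb_thm : STBStmt := by
  classical
  intro Ω _ p n Φ κ hp hn hΦ hher hκ hκ0
  have hne : ∀ j, ∃ k, ∃ E : Set Ω, Real.exp (-κ j) ≤ Pr p E ∧ Φ E = k := fun j =>
    ⟨Φ Set.univ, Set.univ, by
      rw [Pr_univ hp, Real.exp_le_one_iff]
      linarith [hκ0 j], rfl⟩
  have hanti : Antitone κ := antitone_nat_of_succ_le hκ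
  have hmono : ∀ j, Nat.find (hne j) ≤ Nat.find (hne (j + 1)) := by
    intro j
    obtain ⟨E, hE, hE2⟩ := Nat.find_spec (hne (j + 1))
    refine Nat.find_min' (hne j) ⟨E, ?_, hE2⟩
    refine le_trans (Real.exp_le_exp.mpr ?_) hE
    linarith [hκ j]
  have hlt : ∀ j, Nat.find (hne j) < n := by
    intro j
    obtain ⟨E, hE, hE2⟩ := Nat.find_spec (hne j)
    rw [← hE2]
    exact hΦ E (lt_of_lt_of_le (Real.exp_pos _) hE)
  obtain ⟨j, hj, hjj⟩ : ∃ j < n, Nat.find (hne j) = Nat.find (hne (j + 1)) := by
    by_contra hcon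
    push Not at hcon
    have hs : ∀ j ≤ n, j ≤ Nat.find (hne j) := by
      intro j
      induction j with
      | zero => intro _; exact Nat.zero_le _
      | succ j ih =>
        intro hj
        have h1 := ih (by omega)
        have h2 := hcon j (by omega)
        have h3 := hmono j
        omega
    have h1 := hs n le_rfl
    have h2 := hlt n
    omega
  obtain ⟨E, hE, hE2⟩ := Nat.find_spec (hne (j + 1))
  refine ⟨j, hj, E, hE, fun E' hE' hp' => ?_⟩
  have h0 : 0 < Pr p E' := lt_of_lt_of_le (Real.exp_pos _) hp'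
  refine le_antisymm (hher E E' hE' h0) ?_
  rw [hE2, ← hjj]
  exact Nat.find_min' (hne j) ⟨E', hp', rfl⟩

theorem tim_thm : TIMStmt := by
  intro m J F e a E h hm hE
  have h1 := cue_thm F.Ω _ _ F.p F.T (fun ω => (F.l ω, F.Z ω)) (J * Real.log 2 - e) a E F.isLaw
    hm hE
  unfold Fam.Tm
  have h2 : CH (fcut F E h).p (fcut F E h).T (fun ω => ((fcut F E h).l ω, (fcut F E h).Z ω)) =
    CH (cut F.p E) F.T (fun ω => (F.l ω, F.Z ω)) := rfl
  rw [h2]
  linarith

theorem vio_thm : VIOStmt := by
  intro m J j F e a E h h1 h2 h3 h4 hE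
  obtain ⟨x1, h1⟩ := h1
  obtain ⟨x2, h2⟩ := h2
  obtain ⟨x3, h3⟩ := h3
  obtain ⟨x4, h4⟩ := h4
  have a1 := rch_thm F.Ω _ _ F.p (F.D J) F.Z x1 x2 e a E F.isLaw h1 h2 hE
  have a2 := rch_thm F.Ω _ _ F.p (F.X j) F.W x3 x4 e a E F.isLaw h3 h4 hE
  have a3 : (fcut F E h).V j = CH (cut F.p E) (F.D J) F.Z - CH (cut F.p E) (F.X j) F.W -
    m * (((J : ℝ) - j) * Real.log 2) := rfl
  rw [a3]
  unfold Fam.V
  rw [abs_le] at *
  constructor <;> linarith [a1.1, a1.2, a2.1, a2.2]

theorem typ_thm : TYPStmt := by
  classical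
  intro Ω _ p N S f c s e hp he hc hs hv
  set M : ℕ := ⌊(c + s) / e⌋₊ + 1 with hM
  have hM1 : (M : ℝ) ≤ (c + s) / e + 2 := by
    have := Nat.floor_le (a := (c + s) / e) (by positivity)
    rw [hM]
    push_cast
    linarith
  have hM2 : c + s ≤ M * e := by
    have h1 := Nat.lt_floor_add_one ((c + s) / e)
    rw [div_lt_iff₀ he] at h1
    rw [hM]
    push_cast
    exact h1.le
  set b : Ω → Fin N → ℕ := fun ω i => ⌊-Real.log (law p (f i) (f i ω)) / e⌋₊ with hb
  have hb0 : ∀ ω i, 0 < p ω → 0 ≤ -Real.log (law p (f i) (f i ω)) / e := by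
    intro ω i hω
    refine div_nonneg ?_ he.le
    have h1 := law_le_total hp.nonneg (f i) (f i ω)
    rw [hp.sum_one] at h1
    have h2 := Real.log_nonpos (law_nonneg hp.nonneg _ _) h1
    linarith
  set τ : Ω → Option (Fin (M ^ N)) := fun ω =>
    if h : ∀ i, b ω i < M then some (finFunctionFinEquiv fun i => ⟨b ω i, h i⟩) else none with hτ
  refine ⟨M ^ N, τ, ?_, ?_, ?_⟩
  · push_cast
    exact pow_le_pow_left₀ (Nat.cast_nonneg _) hM1 N
  · have h1 : law p τ none ≤ ∑ i : Fin N, Pr p {ω | M ≤ b ω i} := by
      have h2 : law p τ none = Pr p {ω | ∃ i, M ≤ b ω i} := by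
        unfold law
        rw [Pr_eq]
        refine Finset.sum_congr rfl fun ω _ => ?_
        have h3 : τ ω = none ↔ ω ∈ {ω | ∃ i, M ≤ b ω i} := by
          rw [hτ]
          simp only [Set.mem_ofPred_eq]
          by_cases h : ∀ i, b ω i < M
          · rw [dif_pos h]
            simp only [reduceCtorEq, false_iff, not_exists, not_le]
            exact h
          · rw [dif_neg h]
            push Not at h
            simp only [true_iff]
            exact h
        by_cases h : ω ∈ {ω | ∃ i, M ≤ b ω i}
        · rw [if_pos h, if_pos (h3.mpr h)]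
        · rw [if_neg h, if_neg (fun h' => h (h3.mp h'))]
      rw [h2]
      simp only [Pr_eq]
      rw [Finset.sum_comm]
      refine Finset.sum_le_sum fun ω _ => ?_
      by_cases h : ω ∈ {ω | ∃ i, M ≤ b ω i}
      · rw [if_pos h]
        obtain ⟨i, hi⟩ := h
        have h4 := Finset.single_le_sum
          (f := fun i => @ite ℝ (ω ∈ {ω | M ≤ b ω i}) (Classical.propDecidable _) (p ω) 0)
          (fun i _ => by split_ifs; exacts [hp.nonneg ω, le_rfl]) (mem_univ i)
        have h5 : ω ∈ {ω | M ≤ b ω i} := hi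
        simp only [if_pos h5] at h4
        exact h4
      · rw [if_neg h]
        exact Finset.sum_nonneg fun i _ => by split_ifs; exacts [hp.nonneg ω, le_rfl]
    refine h1.trans ?_
    have h2 : ∀ i ∈ (univ : Finset (Fin N)), Pr p {ω | M ≤ b ω i} ≤ Real.exp (-s) := by
      intro i _
      obtain ⟨v, hv1, hv2⟩ := hv i
      have h3 : Pr p {ω | M ≤ b ω i} ≤ ∑ x ∈ v, Real.exp (-(c + s)) := by
        have h4 : Pr p {ω | M ≤ b ω i} ≤
            ∑ x ∈ v, (if law p (f i) x ≤ Real.exp (-(c + s)) then law p (f i) x else 0) := by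
          rw [Pr_eq]
          have h5 : ∀ x ∈ v, (if law p (f i) x ≤ Real.exp (-(c + s)) then law p (f i) x else 0) =
              ∑ ω, if f i ω = x then (if law p (f i) x ≤ Real.exp (-(c + s)) then p ω else 0)
                else 0 := by
            intro x _
            by_cases h : law p (f i) x ≤ Real.exp (-(c + s))
            · simp only [if_pos h]
              unfold law
              exact Finset.sum_congr rfl fun ω _ => rfl
            · simp only [if_neg h]
              simp
          rw [Finset.sum_congr rfl h5, Finset.sum_comm]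
          refine Finset.sum_le_sum fun ω _ => ?_
          rcases (hp.nonneg ω).eq_or_lt with h0 | h0
          · rw [← h0]
            simp
          · by_cases h : ω ∈ {ω | M ≤ b ω i}
            · rw [if_pos h]
              have h6 : M ≤ b ω i := h
              have h7 : law p (f i) (f i ω) ≤ Real.exp (-(c + s)) := by
                rw [← Real.log_le_iff_le_exp (law_pos hp.nonneg _ h0)]
                have h8 : (M : ℝ) ≤ -Real.log (law p (f i) (f i ω)) / e :=
                  (Nat.le_floor_iff (hb0 ω i h0)).mp h6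
                rw [le_div_iff₀ he] at h8
                linarith
              have h9 := Finset.single_le_sum (f := fun x => if f i ω = x then
                (if law p (f i) x ≤ Real.exp (-(c + s)) then p ω else 0) else 0)
                (fun x _ => by split_ifs; exacts [hp.nonneg ω, le_rfl, le_rfl]) (hv1 ω h0)
              simp only [if_pos h7, if_true] at h9
              exact h9
            · rw [if_neg h]
              exact Finset.sum_nonneg fun x _ => by
                split_ifs
                exacts [hp.nonneg ω, le_rfl, le_rfl]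
        refine h4.trans (Finset.sum_le_sum fun x _ => ?_)
        split_ifs with h
        · exact h
        · exact (Real.exp_pos _).le
      refine h3.trans ?_
      rw [Finset.sum_const, nsmul_eq_mul]
      have h4 : (v.card : ℝ) * Real.exp (-(c + s)) ≤ Real.exp c * Real.exp (-(c + s)) :=
        mul_le_mul_of_nonneg_right hv2 (Real.exp_pos _).le
      rw [← Real.exp_add] at h4
      refine h4.trans (Real.exp_le_exp.mpr ?_)
      linarith
    refine (Finset.sum_le_sum h2).trans ?_
    simp
  · intro k hk i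
    set k' : Fin N → Fin M := finFunctionFinEquiv.symm k with hk'
    refine ⟨(k' i : ℕ) * e, ⟨?_, ?_⟩⟩
    · refine ⟨(univ.image (f i)).filter
        (fun x => Real.exp (-(((k' i : ℕ) : ℝ) + 1) * e) ≤ law p (f i) x), ?_, ?_⟩
      · intro ω hω
        have h1 := (cond_pos_iff hp.nonneg τ (some k) ω).mp hω
        refine Finset.mem_filter.mpr ⟨Finset.mem_image_of_mem _ (mem_univ _), ?_⟩
        have h2 : b ω i = (k' i : ℕ) := by
          have h3 := h1.2
          rw [hτ] at h3
          by_cases h : ∀ i, b ω i < M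
          · simp only [dif_pos h, Option.some.injEq] at h3
            rw [hk', ← h3, Equiv.symm_apply_apply]
          · simp only [dif_neg h, reduceCtorEq] at h3
        have h4 := Nat.lt_floor_add_one (-Real.log (law p (f i) (f i ω)) / e)
        rw [div_lt_iff₀ he] at h4
        have h5 : (⌊-Real.log (law p (f i) (f i ω)) / e⌋₊ : ℕ) = (k' i : ℕ) := h2
        rw [h5] at h4
        rw [← Real.le_log_iff_exp_le (law_pos hp.nonneg _ h1.1)]
        linarith
      · have h1 : (((univ.image (f i)).filter
            (fun x => Real.exp (-(((k' i : ℕ) : ℝ) + 1) * e) ≤ law p (f i) x)).card : ℝ) *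
            Real.exp (-(((k' i : ℕ) : ℝ) + 1) * e) ≤ 1 := by
          have h2 := sum_law_le hp (f i) ((univ.image (f i)).filter
            (fun x => Real.exp (-(((k' i : ℕ) : ℝ) + 1) * e) ≤ law p (f i) x))
          refine le_trans ?_ h2
          rw [← nsmul_eq_mul, ← Finset.sum_const]
          exact Finset.sum_le_sum fun x hx => (Finset.mem_filter.mp hx).2
        have h3 : (((univ.image (f i)).filter
            (fun x => Real.exp (-(((k' i : ℕ) : ℝ) + 1) * e) ≤ law p (f i) x)).card : ℝ) ≤
            Real.exp ((((k' i : ℕ) : ℝ) + 1) * e) := by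
          have h4 := Real.exp_pos ((((k' i : ℕ) : ℝ) + 1) * e)
          have h5 : Real.exp (-(((k' i : ℕ) : ℝ) + 1) * e) *
              Real.exp ((((k' i : ℕ) : ℝ) + 1) * e) = 1 := by
            rw [← Real.exp_add, ← Real.exp_zero]
            congr 1
            ring
          have h6 := mul_le_mul_of_nonneg_right h1 h4.le
          rwa [mul_assoc, h5, mul_one, one_mul] at h6
        refine h3.trans (Real.exp_le_exp.mpr ?_)
        linarith
    · intro ω hω
      have h1 := (cond_pos_iff hp.nonneg τ (some k) ω).mp hω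
      have h2 : b ω i = (k' i : ℕ) := by
        have h3 := h1.2
        rw [hτ] at h3
        by_cases h : ∀ i, b ω i < M
        · simp only [dif_pos h, Option.some.injEq] at h3
          rw [hk', ← h3, Equiv.symm_apply_apply]
        · simp only [dif_neg h, reduceCtorEq] at h3
      have h3 : ((k' i : ℕ) : ℝ) ≤ -Real.log (law p (f i) (f i ω)) / e := by
        rw [← h2]
        exact Nat.floor_le (hb0 ω i h1.1)
      rw [le_div_iff₀ he] at h3
      have h4 : law p (f i) (f i ω) ≤ Real.exp (-(((k' i : ℕ) : ℝ) * e)) := by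
        rw [← Real.log_le_iff_le_exp (law_pos hp.nonneg _ h1.1)]
        linarith
      have h5 : 0 < law p τ (some k) := lt_of_lt_of_le (Real.exp_pos _) hk
      rw [law_cond, div_le_iff₀ h5]
      have h6 : law p (fun ω => (f i ω, τ ω)) (f i ω, some k) ≤ law p (f i) (f i ω) := by
        unfold law
        refine Finset.sum_le_sum fun ω' _ => ?_
        simp only [Prod.mk.injEq]
        by_cases h7 : f i ω' = f i ω
        · rw [if_pos h7]
          split_ifs
          · exact le_rfl
          · exact hp.nonneg ω'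
        · rw [if_neg h7, if_neg (fun h => h7 h.1)]
      refine h6.trans (h4.trans ?_)
      have h7 : Real.exp (-(((k' i : ℕ) : ℝ) * e)) ≤
          Real.exp (-(((k' i : ℕ) : ℝ) * e - 2 * e)) * Real.exp (-e) := by
        rw [← Real.exp_add]
        refine Real.exp_le_exp.mpr ?_
        linarith
      exact h7.trans (mul_le_mul_of_nonneg_left hk (Real.exp_pos _).le)

end Pool.KS2
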